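import Pool.Agent.Helper24.AB.AN.Goals

/-! # Project AB, packet WU: the weighted estimate for unbounded weights. -/

open MeasureTheory Set Filter Topology
open scoped ContDiff ENNReal

noncomputable section

namespace Pool.Agent.Helper37.AB

open Pool.Agent.Helper24.AB

/-- the bounded approximation `n ψ / (n + ψ)` -/
def psn (ψ : ℝ → ℝ) (n : ℕ) (t : ℝ) : ℝ := (n + 1) * ψ t / (n + 1 + ψ t)

lemma psn_contDiff {ψ : ℝ → ℝ} (h : ContDiff ℝ ∞ ψ) (h0 : ∀ t, 0 ≤ ψ t) (n : ℕ) :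
    ContDiff ℝ ∞ (psn ψ n) := by
  unfold psn
  refine ContDiff.div (contDiff_const.mul h) (contDiff_const.add h) fun t => ?_
  have := h0 t
  positivity

lemma psn_nonneg {ψ : ℝ → ℝ} (h0 : ∀ t, 0 ≤ ψ t) (n : ℕ) (t : ℝ) : 0 ≤ psn ψ n t := by
  unfold psn
  have := h0 t
  positivity

lemma psn_le {ψ : ℝ → ℝ} (h0 : ∀ t, 0 ≤ ψ t) (n : ℕ) (t : ℝ) : psn ψ n t ≤ ψ t := by
  unfold psn
  have h := h0 t
  have hn : (0 : ℝ) ≤ n := n.cast_nonneg
  rw [div_le_iff₀ (by positivity)]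
  nlinarith

lemma psn_le' {ψ : ℝ → ℝ} (h0 : ∀ t, 0 ≤ ψ t) (n : ℕ) (t : ℝ) : psn ψ n t ≤ n + 1 := by
  unfold psn
  have h := h0 t
  have hn : (0 : ℝ) ≤ n := n.cast_nonneg
  rw [div_le_iff₀ (by positivity)]
  nlinarith

lemma psn_deriv {ψ : ℝ → ℝ} (h : ContDiff ℝ ∞ ψ) (h0 : ∀ t, 0 ≤ ψ t) (n : ℕ) (t : ℝ) :
    deriv (psn ψ n) t = ((n + 1) / (n + 1 + ψ t)) ^ 2 * deriv ψ t := by
  have hd : HasDerivAt ψ (deriv ψ t) t :=
    ((h.differentiable (by simp)) t).hasDerivAt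
  have hp : (n : ℝ) + 1 + ψ t ≠ 0 := by
    have := h0 t
    positivity
  have h1 : HasDerivAt (fun t => ((n : ℝ) + 1) * ψ t) ((n + 1) * deriv ψ t) t :=
    hd.const_mul _
  have h2 : HasDerivAt (fun t => (n : ℝ) + 1 + ψ t) (deriv ψ t) t :=
    hd.const_add _
  have h3 := h1.div h2 hp
  have h4 : HasDerivAt (psn ψ n) _ t := h3
  rw [h4.deriv]
  field_simp
  ring

lemma psn_deriv_abs {ψ : ℝ → ℝ} (h : ContDiff ℝ ∞ ψ) (h0 : ∀ t, 0 ≤ ψ t) (n : ℕ) (t : ℝ) :
    |deriv (psn ψ n) t| ≤ |deriv ψ t| := by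
  rw [psn_deriv h h0, abs_mul, abs_of_nonneg (sq_nonneg _)]
  have h1 := h0 t
  have h2 : ((n : ℝ) + 1) / (n + 1 + ψ t) ≤ 1 := by
    rw [div_le_one (by positivity)]
    linarith
  have h3 : (0 : ℝ) ≤ ((n : ℝ) + 1) / (n + 1 + ψ t) := by positivity
  have h4 : (((n : ℝ) + 1) / (n + 1 + ψ t)) ^ 2 ≤ 1 := pow_le_one₀ h3 h2
  calc _ ≤ 1 * |deriv ψ t| := mul_le_mul_of_nonneg_right h4 (abs_nonneg _)
    _ = _ := one_mul _

lemma psn_tendsto (ψ : ℝ → ℝ) (t : ℝ) :
    Tendsto (fun n : ℕ => psn ψ n t) atTop (𝓝 (ψ t)) := by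
  have h1 : Tendsto (fun n : ℕ => ((n : ℝ) + 1)) atTop atTop :=
    tendsto_atTop_add_const_right _ _ tendsto_natCast_atTop_atTop
  have h2 : Tendsto (fun n : ℕ => ψ t / ((n : ℝ) + 1)) atTop (𝓝 0) :=
    h1.const_div_atTop _
  have h3 : Tendsto (fun n : ℕ => ψ t / (1 + ψ t / ((n : ℝ) + 1))) atTop (𝓝 (ψ t / (1 + 0))) := by
    refine tendsto_const_nhds.div (tendsto_const_nhds.add h2) (by norm_num)
  rw [add_zero, div_one] at h3
  refine h3.congr' ?_
  filter_upwards [] with n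
  unfold psn
  have hn : ((n : ℝ) + 1) ≠ 0 := by positivity
  by_cases hz : (n : ℝ) + 1 + ψ t = 0
  · have : 1 + ψ t / ((n : ℝ) + 1) = 0 := by
      field_simp
      linarith
    rw [this, hz]; simp
  · have h5 : 1 + ψ t / ((n : ℝ) + 1) ≠ 0 := by
      intro h6
      apply hz
      field_simp at h6
      linarith
    field_simp

lemma psn_hypH {a : ℝ} {Φ : ℂ → ℝ} {ψ : ℝ → ℝ} (h : ContDiff ℝ ∞ ψ) (h0 : ∀ t, 0 ≤ ψ t)
    (hH : HypH a Φ ψ) (n : ℕ) : HypH a Φ (psn ψ n) := by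
  intro φ hφ
  refine le_trans ?_ (hH φ hφ)
  have hc : Continuous (fun w : ℂ => (deriv ψ w.im) ^ 2 * ‖φ w‖ ^ 2) := by
    have h1 : Continuous (deriv ψ) := h.continuous_deriv (by simp)
    exact ((h1.comp Complex.continuous_im).pow 2).mul (hφ.1.continuous.norm.pow 2)
  have hs : HasCompactSupport (fun w : ℂ => (deriv ψ w.im) ^ 2 * ‖φ w‖ ^ 2) := by
    refine hφ.2.1.mono ?_
    intro w hw
    rw [Function.mem_support] at hw ⊢
    intro h2
    apply hw
    simp [h2]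
  refine integral_mono_of_nonneg (ae_of_all _ fun w => by positivity)
    (hc.integrable_of_hasCompactSupport hs).integrableOn (ae_of_all _ fun w => ?_)
  refine mul_le_mul_of_nonneg_right ?_ (by positivity)
  exact sq_le_sq.mpr (psn_deriv_abs h h0 n w.im)

/-- PACKET WU. -/
theorem wu (hWB : S_WB) : S_WU := by
  intro a ha
  refine ⟨(1 + Real.toNNReal (5 * a)) * (Real.toNNReal (7 * a) + 2), ?_⟩
  intro Φ ψ z y Xa Xb hΦ hlap hψ h0 hB hH hXa hXb hdom heq
  obtain ⟨B, hB⟩ := hB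
  -- the bounds for the approximations
  have key : ∀ n : ℕ,
      eLpNorm (fun w => Real.exp (psn ψ n w.im) • y w) 2 (muS a) ≤
        ENNReal.ofReal (7 * a) * eLpNorm (fun w => Real.exp (ψ w.im) • Xa w) 2 (muS a) +
        2 * eLpNorm (fun w => Real.exp (ψ w.im) • Xb w) 2 (muS a) ∧
      eLpNorm (fun w => Real.exp (psn ψ n w.im) • z w) 2 (muS a) ≤
        ENNReal.ofReal (5 * a) *
          (ENNReal.ofReal (7 * a) * eLpNorm (fun w => Real.exp (ψ w.im) • Xa w) 2 (muS a) +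
        2 * eLpNorm (fun w => Real.exp (ψ w.im) • Xb w) 2 (muS a)) := by
    intro n
    have hb : ∃ B, ∀ t, |psn ψ n t| ≤ B ∧ |deriv (psn ψ n) t| ≤ B := by
      refine ⟨max (n + 1) B, fun t => ⟨?_, ?_⟩⟩
      · rw [abs_of_nonneg (psn_nonneg h0 n t)]
        exact (psn_le' h0 n t).trans (le_max_left _ _)
      · exact ((psn_deriv_abs hψ h0 n t).trans (hB t)).trans (le_max_right _ _)
    obtain ⟨k1, k2⟩ := hWB a Φ (psn ψ n) z y Xa Xb ha hΦ hlap (psn_contDiff hψ h0 n) hb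
      (psn_hypH hψ h0 hH n) hXa hXb hdom heq
    have mono : ∀ X : ℂ → ℂ, eLpNorm (fun w => Real.exp (psn ψ n w.im) • X w) 2 (muS a) ≤
        eLpNorm (fun w => Real.exp (ψ w.im) • X w) 2 (muS a) := by
      intro X
      refine eLpNorm_mono fun w => ?_
      rw [norm_smul, norm_smul]
      refine mul_le_mul_of_nonneg_right ?_ (norm_nonneg _)
      rw [Real.norm_of_nonneg (Real.exp_pos _).le, Real.norm_of_nonneg (Real.exp_pos _).le]
      exact Real.exp_le_exp.mpr (psn_le h0 n _)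
    have k3 : eLpNorm (fun w => Real.exp (psn ψ n w.im) • y w) 2 (muS a) ≤
        ENNReal.ofReal (7 * a) * eLpNorm (fun w => Real.exp (ψ w.im) • Xa w) 2 (muS a) +
        2 * eLpNorm (fun w => Real.exp (ψ w.im) • Xb w) 2 (muS a) := by
      refine k1.trans (add_le_add ?_ ?_)
      · exact mul_le_mul_right (mono Xa) _
      · exact mul_le_mul_right (mono Xb) _
    exact ⟨k3, k2.trans (mul_le_mul_right k3 _)⟩
  -- the limit
  have hexp : ∀ n : ℕ, Continuous fun w : ℂ => Real.exp (psn ψ n w.im) := fun n =>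
    Real.continuous_exp.comp ((psn_contDiff hψ h0 n).continuous.comp Complex.continuous_im)
  have lim : ∀ (X : ℂ → ℂ) (S : ℝ≥0∞), AEStronglyMeasurable X (muS a) →
      (∀ n : ℕ, eLpNorm (fun w => Real.exp (psn ψ n w.im) • X w) 2 (muS a) ≤ S) →
      eLpNorm (fun w => Real.exp (ψ w.im) • X w) 2 (muS a) ≤ S := by
    intro X S hX hS
    refine (Lp.eLpNorm_lim_le_liminf_eLpNorm
      (f := fun n w => Real.exp (psn ψ n w.im) • X w) (fun n => ?_) _
      (ae_of_all _ fun w => ?_)).trans ?_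
    · exact (hexp n).aestronglyMeasurable.smul hX
    · exact ((Real.continuous_exp.tendsto _).comp (psn_tendsto ψ w.im)).smul_const _
    · refine (liminf_le_liminf (Eventually.of_forall hS)).trans ?_
      rw [liminf_const]
  have hy := lim y _ hdom.memy.1 fun n => (key n).1
  have hz := lim z _ hdom.memz.1 fun n => (key n).2
  set A := eLpNorm (fun w => Real.exp (ψ w.im) • Xa w) 2 (muS a) with hA
  set Bb := eLpNorm (fun w => Real.exp (ψ w.im) • Xb w) 2 (muS a) with hBb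
  refine (add_le_add hy hz).trans ?_
  have e1 : ENNReal.ofReal (7 * a) * A + 2 * Bb ≤ (ENNReal.ofReal (7 * a) + 2) * (A + Bb) := by
    rw [add_mul]
    refine add_le_add ?_ ?_
    · exact mul_le_mul_right le_self_add _
    · exact mul_le_mul_right le_add_self _
  calc ENNReal.ofReal (7 * a) * A + 2 * Bb +
        ENNReal.ofReal (5 * a) * (ENNReal.ofReal (7 * a) * A + 2 * Bb)
      = (1 + ENNReal.ofReal (5 * a)) * (ENNReal.ofReal (7 * a) * A + 2 * Bb) := by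
        rw [add_mul, one_mul]
    _ ≤ (1 + ENNReal.ofReal (5 * a)) * ((ENNReal.ofReal (7 * a) + 2) * (A + Bb)) :=
        mul_le_mul_right e1 _
    _ = _ := by
        rw [← mul_assoc]
        congr 1

end Pool.Agent.Helper37.AB
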