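import Pool.Agent.Helper27.AB.PH3.Goals

/-! # Project AB, module PH3, packet POLA: algebra of the classes `PB a m` -/

open MeasureTheory Set Filter Topology
open scoped ContDiff

noncomputable section

namespace Pool.Agent.Helper37.AB.POLA

open Pool.Agent.Helper24.AB Pool.Agent.Helper15.AB Pool.Agent.Helper27.AB

/-- one partial derivative -/
def DD (b : Bool) (f : ℂ → ℝ) : ℂ → ℝ := if b then dT f else dS f

/-- direction -/
def dir (b : Bool) : ℂ := if b then Complex.I else 1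

theorem DD_apply (b : Bool) (f : ℂ → ℝ) (z : ℂ) : DD b f z = fderiv ℝ f z (dir b) := by
  cases b <;> rfl

theorem Dw_cons (b : Bool) (w : List Bool) (f : ℂ → ℝ) : Dw (b :: w) f = DD b (Dw w f) := rfl

theorem isOpen_strip (a : ℝ) : IsOpen (strip a) :=
  isOpen_lt (continuous_abs.comp Complex.continuous_re) continuous_const

variable {a : ℝ}

theorem diff {f : ℂ → ℝ} (hf : ContDiffOn ℝ ∞ f (strip a)) {z : ℂ} (hz : z ∈ strip a) :
    DifferentiableAt ℝ f z :=
  (hf.contDiffAt ((isOpen_strip a).mem_nhds hz)).differentiableAt (by simp)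

theorem DD_smooth (b : Bool) {f : ℂ → ℝ} (hf : ContDiffOn ℝ ∞ f (strip a)) :
    ContDiffOn ℝ ∞ (DD b f) (strip a) := by
  have h1 : ContDiffOn ℝ ∞ (fderiv ℝ f) (strip a) :=
    hf.fderiv_of_isOpen (isOpen_strip a) (by simp)
  have h2 : ContDiffOn ℝ ∞ (fun z => fderiv ℝ f z (dir b)) (strip a) := h1.clm_apply contDiffOn_const
  have e : DD b f = fun z => fderiv ℝ f z (dir b) := funext fun z => DD_apply b f z
  rw [e]
  exact h2

theorem DD_congr (b : Bool) {f g : ℂ → ℝ} (h : ∀ z ∈ strip a, f z = g z) :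
    ∀ z ∈ strip a, DD b f z = DD b g z := by
  intro z hz
  have e : f =ᶠ[𝓝 z] g := by
    filter_upwards [(isOpen_strip a).mem_nhds hz] with y hy
    exact h y hy
  rw [DD_apply, DD_apply, e.fderiv_eq]

theorem DD_add (b : Bool) {f g : ℂ → ℝ} (hf : ContDiffOn ℝ ∞ f (strip a))
    (hg : ContDiffOn ℝ ∞ g (strip a)) {z : ℂ} (hz : z ∈ strip a) :
    DD b (fun y => f y + g y) z = DD b f z + DD b g z := by
  rw [DD_apply, DD_apply, DD_apply, fderiv_fun_add (diff hf hz) (diff hg hz)]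
  rfl

theorem DD_mul (b : Bool) {f g : ℂ → ℝ} (hf : ContDiffOn ℝ ∞ f (strip a))
    (hg : ContDiffOn ℝ ∞ g (strip a)) {z : ℂ} (hz : z ∈ strip a) :
    DD b (fun y => f y * g y) z = DD b f z * g z + f z * DD b g z := by
  rw [DD_apply, DD_apply, DD_apply, fderiv_fun_mul (diff hf hz) (diff hg hz)]
  simp only [_root_.add_apply, _root_.smul_apply, smul_eq_mul]
  ring

theorem DD_smul (b : Bool) (r : ℝ) {f : ℂ → ℝ} (hf : ContDiffOn ℝ ∞ f (strip a)) {z : ℂ} (hz : z ∈ strip a) :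
    DD b (fun y => r * f y) z = r * DD b f z := by
  rw [DD_apply, DD_apply, fderiv_const_mul (diff hf hz)]
  rfl

theorem Dw_smooth (w : List Bool) {f : ℂ → ℝ} (hf : ContDiffOn ℝ ∞ f (strip a)) :
    ContDiffOn ℝ ∞ (Dw w f) (strip a) := by
  induction w with
  | nil => exact hf
  | cons b w ih => exact DD_smooth b ih

theorem Dw_congr (w : List Bool) {f g : ℂ → ℝ} (h : ∀ z ∈ strip a, f z = g z) :
    ∀ z ∈ strip a, Dw w f z = Dw w g z := by
  induction w with
  | nil => exact h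
  | cons b w ih => exact DD_congr b ih

theorem Dw_append (w : List Bool) (b : Bool) (f : ℂ → ℝ) : Dw (w ++ [b]) f = Dw w (DD b f) := by
  induction w with
  | nil => rfl
  | cons c w ih => rw [List.cons_append, Dw_cons, Dw_cons, ih]

theorem Dw_add (w : List Bool) {f g : ℂ → ℝ} (hf : ContDiffOn ℝ ∞ f (strip a))
    (hg : ContDiffOn ℝ ∞ g (strip a)) :
    ∀ z ∈ strip a, Dw w (fun y => f y + g y) z = Dw w f z + Dw w g z := by
  induction w with
  | nil => intro z _; rfl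
  | cons b w ih =>
    intro z hz
    rw [Dw_cons, Dw_cons, Dw_cons, DD_congr b ih z hz]
    exact DD_add b (Dw_smooth w hf) (Dw_smooth w hg) hz

theorem Dw_smul (w : List Bool) (r : ℝ) {f : ℂ → ℝ} (hf : ContDiffOn ℝ ∞ f (strip a)) :
    ∀ z ∈ strip a, Dw w (fun y => r * f y) z = r * Dw w f z := by
  induction w with
  | nil => intro z _; rfl
  | cons b w ih =>
    intro z hz
    rw [Dw_cons, Dw_cons, DD_congr b ih z hz]
    exact DD_smul b r (Dw_smooth w hf) hz

theorem WP_ge (q : Par) (t : ℝ) : 1 ≤ WP q t := by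
  unfold WP Wf
  have h1 := abs_nonneg (uf q.1.1 t)
  have h2 := abs_nonneg (vf q.1.2.1 t)
  have h3 := abs_nonneg q.1.2.2
  linarith

/-- bounded by a power of the weight -/
def BB (a : ℝ) (g : Par → ℂ → ℝ) : Prop :=
  ∃ (C : ℝ) (N : ℕ), ∀ q, ∀ z ∈ strip a, |g q z| ≤ C * WP q z.im ^ N

theorem BB.add {g h : Par → ℂ → ℝ} (h1 : BB a g) (h2 : BB a h) : BB a (fun q z => g q z + h q z) := by
  obtain ⟨C, N, hC⟩ := h1
  obtain ⟨C', N', hC'⟩ := h2
  refine ⟨|C| + |C'|, N + N', fun q z hz => ?_⟩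
  have hW := WP_ge q z.im
  have e1 : WP q z.im ^ N ≤ WP q z.im ^ (N + N') := pow_le_pow_right₀ hW (by omega)
  have e2 : WP q z.im ^ N' ≤ WP q z.im ^ (N + N') := pow_le_pow_right₀ hW (by omega)
  have p1 : 0 ≤ WP q z.im ^ N := by positivity
  have p2 : 0 ≤ WP q z.im ^ N' := by positivity
  have a1 : C * WP q z.im ^ N ≤ |C| * WP q z.im ^ (N + N') :=
    (mul_le_mul_of_nonneg_right (le_abs_self C) p1).trans (mul_le_mul_of_nonneg_left e1 (abs_nonneg C))
  have a2 : C' * WP q z.im ^ N' ≤ |C'| * WP q z.im ^ (N + N') :=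
    (mul_le_mul_of_nonneg_right (le_abs_self C') p2).trans (mul_le_mul_of_nonneg_left e2 (abs_nonneg C'))
  calc |g q z + h q z| ≤ |g q z| + |h q z| := abs_add_le _ _
    _ ≤ |C| * WP q z.im ^ (N + N') + |C'| * WP q z.im ^ (N + N') :=
        add_le_add ((hC q z hz).trans a1) ((hC' q z hz).trans a2)
    _ = (|C| + |C'|) * WP q z.im ^ (N + N') := by ring

theorem BB.mul {g h : Par → ℂ → ℝ} (h1 : BB a g) (h2 : BB a h) : BB a (fun q z => g q z * h q z) := by
  obtain ⟨C, N, hC⟩ := h1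
  obtain ⟨C', N', hC'⟩ := h2
  refine ⟨C * C', N + N', fun q z hz => ?_⟩
  rw [abs_mul, pow_add]
  calc |g q z| * |h q z| ≤ (C * WP q z.im ^ N) * (C' * WP q z.im ^ N') :=
        mul_le_mul (hC q z hz) (hC' q z hz) (abs_nonneg _) ((abs_nonneg _).trans (hC q z hz))
    _ = C * C' * (WP q z.im ^ N * WP q z.im ^ N') := by ring

theorem BB.smul (r : ℝ) {g : Par → ℂ → ℝ} (h1 : BB a g) : BB a (fun q z => r * g q z) := by
  obtain ⟨C, N, hC⟩ := h1
  refine ⟨|r| * C, N, fun q z hz => ?_⟩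
  rw [abs_mul, mul_assoc]
  exact mul_le_mul_of_nonneg_left (hC q z hz) (abs_nonneg r)

theorem BB.congr {g h : Par → ℂ → ℝ} (h1 : BB a g) (e : ∀ q, ∀ z ∈ strip a, h q z = g q z) : BB a h := by
  obtain ⟨C, N, hC⟩ := h1
  exact ⟨C, N, fun q z hz => by rw [e q z hz]; exact hC q z hz⟩

theorem PB.congr {m : ℕ} {c d : Par → ℂ → ℝ} (e : ∀ q, ∀ z ∈ strip a, c q z = d q z) (h : PB a m c) :
    PB a m d :=
  ⟨fun q => (h.smooth q).congr fun z hz => (e q z hz).symm, fun w hw =>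
    BB.congr (h.bdd w hw) fun q z hz => Dw_congr w (fun y hy => (e q y hy).symm) z hz⟩

theorem PB.mono {m m' : ℕ} (hm : m' ≤ m) {c : Par → ℂ → ℝ} (h : PB a m c) : PB a m' c :=
  ⟨h.smooth, fun w hw => h.bdd w (hw.trans hm)⟩

theorem PB.der {m : ℕ} {c : Par → ℂ → ℝ} (h : PB a (m + 1) c) (b : Bool) : PB a m (fun q => DD b (c q)) := by
  refine ⟨fun q => DD_smooth b (h.smooth q), fun w hw => ?_⟩
  obtain ⟨C, N, hC⟩ := h.bdd (w ++ [b]) (by simpa using hw)
  refine ⟨C, N, fun q z hz => ?_⟩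
  rw [← Dw_append]
  exact hC q z hz

theorem PB.of_der {m : ℕ} {c : Par → ℂ → ℝ} (h0 : PB a 0 c) (h : ∀ b, PB a m (fun q => DD b (c q))) :
    PB a (m + 1) c := by
  refine ⟨h0.smooth, fun w hw => ?_⟩
  rcases List.eq_nil_or_concat w with rfl | ⟨w', b, rfl⟩
  · exact h0.bdd [] (by simp)
  · obtain ⟨C, N, hC⟩ := (h b).bdd w' (by simpa using hw)
    refine ⟨C, N, fun q z hz => ?_⟩
    rw [List.concat_eq_append, Dw_append]
    exact hC q z hz

theorem PB.add {m : ℕ} {c d : Par → ℂ → ℝ} (h1 : PB a m c) (h2 : PB a m d) :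
    PB a m (fun q z => c q z + d q z) :=
  ⟨fun q => (h1.smooth q).add (h2.smooth q), fun w hw =>
    BB.congr (BB.add (h1.bdd w hw) (h2.bdd w hw)) fun q => Dw_add w (h1.smooth q) (h2.smooth q)⟩

theorem PB.smul {m : ℕ} (r : ℝ) {c : Par → ℂ → ℝ} (h1 : PB a m c) :
    PB a m (fun q z => r * c q z) :=
  ⟨fun q => contDiffOn_const.mul (h1.smooth q), fun w hw =>
    BB.congr (BB.smul r (h1.bdd w hw)) fun q => Dw_smul w r (h1.smooth q)⟩

theorem PB.mul : ∀ (m : ℕ) (c d : Par → ℂ → ℝ), PB a m c → PB a m d → PB a m (fun q z => c q z * d q z) := by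
  have base : ∀ (m : ℕ) (c d : Par → ℂ → ℝ), PB a m c → PB a m d → PB a 0 (fun q z => c q z * d q z) := by
    intro m c d h1 h2
    refine ⟨fun q => (h1.smooth q).mul (h2.smooth q), fun w hw => ?_⟩
    have hw' : w = [] := List.eq_nil_of_length_eq_zero (by omega)
    subst hw'
    exact BB.mul (h1.bdd [] (by simp)) (h2.bdd [] (by simp))
  intro m
  induction m with
  | zero => exact base 0
  | succ m ih =>
    intro c d h1 h2
    refine PB.of_der (base _ c d h1 h2) fun b => ?_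
    have h3 := PB.add (ih _ _ (PB.der h1 b) (PB.mono (Nat.le_succ m) h2))
      (ih _ _ (PB.mono (Nat.le_succ m) h1) (PB.der h2 b))
    exact PB.congr (fun q z hz => (DD_mul b (h1.smooth q) (h2.smooth q) hz).symm) h3

theorem pola : S_POLA := by
  intro a
  refine ⟨fun m c d => PB.add, fun m c h => ?_, fun m c r => PB.smul r, PB.mul,
    fun m c h => ⟨PB.mono (Nat.le_succ m) h, PB.der h false, PB.der h true⟩,
    fun m c h0 hS hT => PB.of_der h0 fun b => ?_, fun m c d => PB.congr⟩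
  · exact PB.congr (fun q z _ => by ring) (PB.smul (-1) h)
  · cases b
    · exact hS
    · exact hT

end Pool.Agent.Helper37.AB.POLA
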